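import Pool.Agent.H354R3.ZN.Defs
import Pool.Agent.H354R3.ZN.DOT

/-!
# (PERM1)
-/

set_option autoImplicit false

open scoped Matrix

namespace Pool.Agent.T9h81.ZN

open H354ZN Finset

theorem t_PERM1 : H354ZN.S_PERM1 := by
  classical
  intro m N z I j hI hj
  have hc : (insert j I).card = m + 1 := by rw [card_insert_of_notMem hj, hI]
  rw [t_DOT m N z I hI (z j)]
  unfold DD
  rw [dif_pos hc]
  obtain ⟨a, ha⟩ : ∃ a : Fin (m + 1) → Fin N,
      a = Fin.cons (α := fun _ => Fin N) j (fun i => I.orderEmbOfFin hI i) := ⟨_, rfl⟩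
  have ha0 : a 0 = j := by rw [ha]; rfl
  have has : ∀ i : Fin m, a i.succ = I.orderEmbOfFin hI i := by
    intro i
    rw [ha]
    rfl
  have hrows : rows z I hI (z j) = fun i => z (a i) := by
    funext i
    refine Fin.cases ?_ (fun i => ?_) i
    · rw [ha0]
      rfl
    · rw [has]
      rfl
  have hmem : ∀ i, a i ∈ insert j I := by
    intro i
    refine Fin.cases ?_ (fun i => ?_) i
    · rw [ha0]
      exact mem_insert_self _ _
    · rw [has]
      exact mem_insert_of_mem (orderEmbOfFin_mem I hI i)
  have hinj : Function.Injective a := by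
    intro i i'
    refine Fin.cases ?_ (fun i => ?_) i
    · refine Fin.cases ?_ (fun i' => ?_) i'
      · intro _
        rfl
      · intro h
        rw [ha0, has] at h
        exact absurd (h ▸ orderEmbOfFin_mem I hI i') hj
    · refine Fin.cases ?_ (fun i' => ?_) i'
      · intro h
        rw [ha0, has] at h
        exact absurd (h ▸ orderEmbOfFin_mem I hI i) hj
      · intro h
        rw [has, has] at h
        rw [(I.orderEmbOfFin hI).injective h]
  let a' : Fin (m + 1) → (insert j I : Finset (Fin N)) := fun i => ⟨a i, hmem i⟩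
  have hinj' : Function.Injective a' := fun i i' h => hinj (congrArg Subtype.val h)
  have hbij : Function.Bijective a' := by
    rw [Fintype.bijective_iff_injective_and_card]
    refine ⟨hinj', ?_⟩
    rw [Fintype.card_fin, Fintype.card_coe, hc]
  let σ : Equiv.Perm (Fin (m + 1)) :=
    (Equiv.ofBijective a' hbij).trans ((insert j I).orderIsoOfFin hc).toEquiv.symm
  have hσ : ∀ i, (insert j I).orderEmbOfFin hc (σ i) = a i := by
    intro i
    have h1 : (insert j I).orderIsoOfFin hc (σ i) = a' i := by
      change (insert j I).orderIsoOfFin hc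
        (((insert j I).orderIsoOfFin hc).toEquiv.symm (a' i)) = a' i
      exact ((insert j I).orderIsoOfFin hc).toEquiv.apply_symm_apply (a' i)
    have h2 := congrArg Subtype.val h1
    rw [coe_orderIsoOfFin_apply] at h2
    exact h2
  have hM : Matrix.of (rows z I hI (z j)) =
      (Matrix.of fun i => z ((insert j I).orderEmbOfFin hc i)).submatrix σ id := by
    rw [hrows]
    ext i k
    simp only [Matrix.of_apply, Matrix.submatrix_apply, id]
    rw [hσ]
  rw [hM, Matrix.det_permute, abs_mul]
  have hs : |(((Equiv.Perm.sign σ : ℤˣ) : ℤ) : ℝ)| = 1 := by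
    rcases Int.units_eq_one_or (Equiv.Perm.sign σ) with h | h <;> rw [h] <;> simp
  rw [hs, one_mul]

end Pool.Agent.T9h81.ZN
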